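import Pool.Agent.MP_f0209c_nt.Ch.Entropy

attribute [-instance] AddQuantale.instAddLeftMono RKHS.instFunLike instCoeTCOfCoe
  IdemSemiring.toCanonicallyOrderedAdd NumberField.to_charZero instCoeHTCOfCoeHeadOfCoeOTC
  AddQuantale.instAddRightMono instCoeHTCTOfCoeTailOfCoeHTC covariant_swap_mul_of_covariant_mul
  Nontrivial.to_nonempty instCoeTOfCoeDep Quantale.instMulRightMono TestFunctionClass.toDFunLike
  ContDiffMapSupportedInClass.toDFunLike CharP.ofCharZero IdemSemiring.toMulLeftMono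
  Zero.instNonempty AlgHom.instNonUnitalAlgHomClassOfAlgHomClass bot_nonempty EquivLike.toFunLike
  Fintype.decidableForallFintype

-- part MP_4efd57_nt.Equi
section

/-! Additive characters, the joint law of `n mod Q` and `floor (n α) mod Q`, and a tilting
inequality for the entropy of blocks. -/

namespace Pool.Agent.MP_4efd57_nt
open Filter Topology Finset Pool.Agent.MP_f0209c_nt.Ch

/-- the additive character `exp (2 π i x)` -/
noncomputable def ee (x : ℝ) : ℂ := Complex.exp (2 * Real.pi * Complex.I * x)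

lemma ee_add (x y : ℝ) : ee (x + y) = ee x * ee y := by
  simp [ee, mul_add, Complex.exp_add]

lemma ee_eq (x : ℝ) : ee x = Complex.exp (Complex.I * ((2 * Real.pi * x : ℝ) : ℂ)) := by
  rw [ee]; congr 1; push_cast; ring

lemma norm_ee (x : ℝ) : ‖ee x‖ = 1 := by
  rw [ee_eq, mul_comm, Complex.norm_exp_ofReal_mul_I]

lemma ee_int (k : ℤ) : ee k = 1 := by
  rw [ee, mul_comm]; exact_mod_cast Complex.exp_int_mul_two_pi_mul_I k

lemma ee_nat (k : ℕ) : ee k = 1 := by exact_mod_cast ee_int k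

lemma ee_lip (x y : ℝ) : ‖ee x - ee y‖ ≤ 7 * |x - y| := by
  have e : ee x - ee y = ee y * (ee (x - y) - 1) := by
    rw [mul_sub, ← ee_add, mul_one]; congr 2; ring
  rw [e, norm_mul, norm_ee, one_mul, ee_eq]
  refine Real.norm_exp_I_mul_ofReal_sub_one_le.trans ?_
  rw [Real.norm_eq_abs, abs_mul, abs_of_pos (by positivity : 0 < 2 * Real.pi)]
  exact mul_le_mul_of_nonneg_right (by linarith [Real.pi_lt_d2]) (abs_nonneg _)

lemma conj_ee (x : ℝ) : (starRingEnd ℂ) (ee x) = ee (-x) := by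
  rw [ee, ee, ← Complex.exp_conj]
  congr 1
  simp [map_ofNat]

lemma sum_ee {p h : ℕ} (hp : p.Prime) (h0 : 0 < h) (h1 : h < p) (c : ℝ) :
    ∑ κ ∈ range p, ee (h * (κ + c) / p) = 0 := by
  have p0 : (p : ℝ) ≠ 0 := by exact_mod_cast hp.ne_zero
  have pr := (Complex.isPrimitiveRoot_exp p hp.ne_zero).pow_of_coprime h
    ((Nat.coprime_of_lt_prime h0.ne' h1 hp).symm)
  have e : ∀ κ : ℕ, ee (h * (κ + c) / p) =
      (Complex.exp (2 * Real.pi * Complex.I / p) ^ h) ^ κ * ee (h * c / p) := fun κ => by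
    rw [show (h * (κ + c) / p : ℝ) = h * κ / p + h * c / p by ring, ee_add, ← Complex.exp_nat_mul,
      ← Complex.exp_nat_mul, ee]
    congr 2
    push_cast; ring
  simp only [e]
  rw [← sum_mul, pr.geom_sum_eq_zero hp.one_lt, zero_mul]

/-- the pair `(n mod Q, floor (n α) mod Q)` -/
noncomputable def VV (α : ℝ) (Q : ℕ) [NeZero Q] (n : ℕ) : Fin Q × Fin Q := (res Q n, res Q ⌊n * α⌋₊)

lemma Pr_VV {α : ℝ} (hα : Irrational α) (h0 : 0 ≤ α) (Q : ℕ) [NeZero Q] (v : Fin Q × Fin Q) :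
    Pr (VV α Q) v ≤ 3 / Fintype.card (Fin Q × Fin Q) := by
  have Q0 : (0 : ℝ) < Q := by exact_mod_cast NeZero.pos Q
  have hd : Dense (AddSubgroup.closure {α, 1} : Set ℝ) :=
    dense_addSubgroupClosure_pair_iff.2 (by simpa using hα)
  have ex : ∀ i : ℕ, ∃ c k : ℤ, 2 * i / Q < c * α + k ∧ c * α + k < (2 * i + 1) / Q := fun i => by
    obtain ⟨x, x1, x2, x3⟩ := hd.exists_between
      (show (2 * i / Q : ℝ) < (2 * i + 1) / Q by gcongr; linarith)
    obtain ⟨c, k, rfl⟩ := AddSubgroup.mem_closure_pair.1 x1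
    exact ⟨c, k, by simpa only [zsmul_eq_mul, mul_one] using x2, by simpa using x3⟩
  choose c k h1 h2 using ex
  obtain ⟨c', C, hc⟩ : ∃ (c' : ℕ → ℕ) (C : ℤ), ∀ i < Q, (c' i : ℤ) = c i + C := by
    refine ⟨fun i => (c i + ∑ j ∈ range Q, |c j|).toNat, ∑ j ∈ range Q, |c j|, fun i hi => ?_⟩
    have := single_le_sum (f := fun j => |c j|) (fun j _ => abs_nonneg _) (mem_range.2 hi)
    exact Int.toNat_of_nonneg (by linarith only [neg_abs_le (c i), this])
  let m : Fin Q × Fin (Q / 2) → ℕ := fun t => t.1 + Q * c' t.2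
  have sep : ∀ n i j : ℕ, j < i → i < Q / 2 →
      res Q ⌊((n + Q * c' i : ℕ) : ℝ) * α⌋₊ ≠ res Q ⌊((n + Q * c' j : ℕ) : ℝ) * α⌋₊ := by
    intro n i j ji iQ e
    have e1 : ⌊((n + Q * c' i : ℕ) : ℝ) * α⌋₊ ≡ ⌊((n + Q * c' j : ℕ) : ℝ) * α⌋₊ [MOD Q] :=
      congrArg Fin.val e
    obtain ⟨t, ht⟩ := (Nat.modEq_iff_dvd.1 e1.symm)
    have a1 := Nat.floor_le (show 0 ≤ ((n + Q * c' i : ℕ) : ℝ) * α by positivity)
    have a2 := Nat.lt_floor_add_one (((n + Q * c' i : ℕ) : ℝ) * α)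
    have a3 := Nat.floor_le (show 0 ≤ ((n + Q * c' j : ℕ) : ℝ) * α by positivity)
    have a4 := Nat.lt_floor_add_one (((n + Q * c' j : ℕ) : ℝ) * α)
    have a5 : ((⌊((n + Q * c' i : ℕ) : ℝ) * α⌋₊ : ℝ) - (⌊((n + Q * c' j : ℕ) : ℝ) * α⌋₊ : ℝ)) =
        Q * t := by exact_mod_cast ht
    have ci : (c' i : ℝ) = c i + C := by exact_mod_cast hc i (by omega)
    have cj : (c' j : ℝ) = c j + C := by exact_mod_cast hc j (by omega)
    have b1 := (div_lt_iff₀ Q0).1 (h1 i)
    have b2 := (lt_div_iff₀ Q0).1 (h2 i)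
    have b3 := (div_lt_iff₀ Q0).1 (h1 j)
    have b4 := (lt_div_iff₀ Q0).1 (h2 j)
    have ij : (j : ℝ) + 1 ≤ i := by exact_mod_cast ji
    have iq : 2 * (i : ℝ) + 2 ≤ Q := by exact_mod_cast (by omega : 2 * i + 2 ≤ Q)
    have j0 : (0 : ℝ) ≤ j := Nat.cast_nonneg j
    push_cast at a1 a2 a3 a4 a5
    rw [ci] at a1 a2 a5
    rw [cj] at a3 a4 a5
    have l1 : (0 : ℝ) < Q * ((t + k i - k j : ℤ) : ℝ) := by push_cast; linarith only [b1, b4, ij, a2, a3, a5]
    have l2 : Q * ((t + k i - k j : ℤ) : ℝ) < Q * 1 := by push_cast; linarith only [b2, b3, iq, a1, a4, a5]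
    have l3 : 0 < t + k i - k j := by exact_mod_cast (mul_pos_iff_of_pos_left Q0).1 l1
    have l4 : t + k i - k j < 1 := by exact_mod_cast lt_of_mul_lt_mul_left l2 Q0.le
    omega
  have one : ∀ n, ∑ t, (if VV α Q (n + m t) = v then 1 else 0 : ℝ) ≤ 1 := fun n => by
    rw [sum_boole]
    have : (univ.filter fun t => VV α Q (n + m t) = v).card ≤ 1 := card_le_one.2 fun s hs t ht => by
      have e := (mem_filter.1 hs).2.trans (mem_filter.1 ht).2.symm
      have e1 : n + m s ≡ n + m t [MOD Q] := congrArg Fin.val (congrArg Prod.fst e)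
      have e2 : s.1 = t.1 := by
        have := Nat.ModEq.add_left_cancel' n e1
        simp only [m, Nat.ModEq, Nat.add_mul_mod_self_left, Nat.mod_eq_of_lt s.1.2,
          Nat.mod_eq_of_lt t.1.2] at this
        exact Fin.ext this
      have e3 := congrArg Prod.snd e
      simp only [VV, m, e2, ← add_assoc] at e3
      refine Prod.ext e2 (Fin.ext ?_)
      by_contra ne
      rcases lt_or_gt_of_ne ne with l | l
      · exact sep _ _ _ l t.2.2 e3.symm
      · exact sep _ _ _ l s.2.2 e3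
    exact_mod_cast this
  have tot := Ex_le (f := fun n => ∑ t, (if VV α Q (n + m t) = v then 1 else 0 : ℝ))
    (Bdd.sum fun _ _ => by fun_prop) one
  rw [Ex_sum fun _ _ => by fun_prop] at tot
  replace tot : ∑ t, Pr (fun n => VV α Q (n + m t)) v ≤ 1 := tot
  simp only [Pr_shift, sum_const, card_univ, Fintype.card_prod, Fintype.card_fin, nsmul_eq_mul]
    at tot ⊢
  rw [Nat.cast_mul] at tot ⊢
  rw [le_div_iff₀ (by positivity)]
  have p0 := Pr_nonneg (VV α Q) v
  by_cases q : Q = 1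
  · have : Pr (VV α Q) v ≤ 1 :=
      sum_Pr (VV α Q) ▸ single_le_sum (fun a _ => Pr_nonneg _ a) (mem_univ v)
    have q1 : (Q : ℝ) = 1 := by exact_mod_cast q
    rw [q1]; linarith only [this]
  · have q1 := NeZero.pos Q
    have q2 : (Q : ℝ) ≤ 3 * ((Q / 2 : ℕ) : ℝ) := by exact_mod_cast (by omega : Q ≤ 3 * (Q / 2))
    have := mul_le_mul_of_nonneg_left q2 (mul_nonneg p0 Q0.le)
    linarith only [tot, this]

section
variable {A : Type} [Fintype A] [DecidableEq A] {W : Type} [Fintype W] [DecidableEq W]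

lemma Ent_shift (φ : ℕ → A) (k : ℕ) : Ent (fun n => φ (n + k)) = Ent φ := by
  simp only [Ent, Pr_shift]
  exact Ex_shift (Bdd.fin (fun a => -Real.log (Pr φ a)) φ) k

/-- coding several observables with the help of an almost uniform key -/
lemma tilt {r : ℕ} (φ : Fin r → ℕ → A) (V : ℕ → W) {c β : ℝ} (hc : 0 < c)
    (hV : ∀ v, Pr V v ≤ c / Fintype.card W) (G : Fin r → A → W → ℝ)
    (hG : ∀ i x, ∑ v, Real.exp (G i x v) ≤ Fintype.card W * Real.exp β) :
    Ent (fun n i => φ i n) ≤ Real.log (Fintype.card W) +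
      ∑ i, (Ent (φ i) + (Real.log c + β) - Ex fun n => G i (φ i n) (V n)) := by
  have N0 : (0 : ℝ) < Fintype.card W := by exact_mod_cast Fintype.card_pos_iff.2 ⟨V 0⟩
  set N : ℝ := (Fintype.card W : ℝ) with hN
  let Z : Fin r → W → ℝ := fun i v => ∑ x, Pr (φ i) x * Real.exp (G i x v)
  have Z0 : ∀ i v, 0 < Z i v := fun i v => by
    obtain ⟨x, -, hx⟩ := exists_ne_zero_of_sum_ne_zero (sum_Pr (φ i) ▸ one_ne_zero :
      ∑ x, Pr (φ i) x ≠ 0)
    exact sum_pos' (fun x _ => mul_nonneg (Pr_nonneg _ _) (Real.exp_pos _).le)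
      ⟨x, mem_univ _, mul_pos ((Pr_nonneg _ _).lt_of_ne' hx) (Real.exp_pos _)⟩
  have z0 : 0 < c * Real.exp β := by positivity
  have EZ : ∀ i, Ex (fun n => Real.log (Z i (V n))) ≤ Real.log c + β := fun i => by
    have a1 : Ex (fun n => Z i (V n)) ≤ c * Real.exp β := by
      rw [Ex_fin V (Z i)]
      refine (sum_le_sum fun v _ => mul_le_mul_of_nonneg_right (hV v) (Z0 i v).le).trans ?_
      rw [← mul_sum]
      simp only [Z]
      rw [sum_comm]
      simp only [← mul_sum]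
      refine (mul_le_mul_of_nonneg_left (sum_le_sum fun x _ => mul_le_mul_of_nonneg_left (hG i x)
        (Pr_nonneg _ _)) (by positivity)).trans (le_of_eq ?_)
      rw [← sum_mul, sum_Pr]; field_simp
    have a2 := Ex_mono (f := fun n => Real.log (Z i (V n)))
      (g := fun n => 1 / (c * Real.exp β) * Z i (V n) + (Real.log c + β - 1))
      (Bdd.fin (fun v => Real.log (Z i v)) V)
      (((Bdd.const _).mul (Bdd.fin (Z i) V)).add (Bdd.const _)) fun n => by
        have := Real.log_le_sub_one_of_pos (div_pos (Z0 i (V n)) z0)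
        rw [Real.log_div (Z0 _ _).ne' z0.ne', Real.log_mul hc.ne' (Real.exp_pos _).ne',
          Real.log_exp] at this
        rw [one_div_mul_eq_div]
        linarith
    rw [Ex_add ((Bdd.const _).mul (Bdd.fin (Z i) V)) (Bdd.const _), Ex_mul (Bdd.fin (Z i) V),
      Ex_const, one_div_mul_eq_div] at a2
    linarith [(div_le_one z0).2 a1]
  have pos : ∀ x : (Fin r → A) × W, 0 < Pr (fun n => (fun i => φ i n, V n)) x →
      ∀ i, 0 < Pr (φ i) (x.1 i) := fun x hx i => hx.trans_le (Pr_le fun n e => by rw [← e])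
  have h1 := gibbs (fun n => (fun i => φ i n, V n))
    (fun x => 1 / N * ∏ i, (Pr (φ i) (x.1 i) * Real.exp (G i (x.1 i) x.2) / Z i x.2))
    (fun x => mul_nonneg (by positivity) (prod_nonneg fun i _ =>
      div_nonneg (mul_nonneg (Pr_nonneg _ _) (Real.exp_pos _).le) (Z0 _ _).le))
    (by
      rw [Fintype.sum_prod_type_right]
      refine (sum_congr rfl (g := fun _ => (1 / N : ℝ)) fun y _ => ?_).le.trans
        (by simp [← hN, N0.ne'])
      dsimp only
      rw [← mul_sum, ← Fintype.piFinset_univ, ← prod_univ_sum (fun _ => univ)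
        fun (i : Fin r) (a : A) => Pr (φ i) a * Real.exp (G i a y) / Z i y]
      simp only [← sum_div]
      rw [prod_eq_one fun i _ => div_self (Z0 i y).ne', mul_one])
    fun x hx => mul_pos (by positivity) (prod_pos fun i _ =>
      div_pos (mul_pos (pos x hx i) (Real.exp_pos _)) (Z0 _ _))
  have h2 := Ex_mono_as (fun n => (fun i => φ i n, V n))
    (F := fun x => -Real.log (1 / N * ∏ i, (Pr (φ i) (x.1 i) * Real.exp (G i (x.1 i) x.2) / Z i x.2)))
    (G := fun x => Real.log N +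
      ∑ i, (-Real.log (Pr (φ i) (x.1 i)) + Real.log (Z i x.2) - G i (x.1 i) x.2)) fun x hx => by
      have p := fun i => div_pos (mul_pos (pos x hx i) (Real.exp_pos (G i (x.1 i) x.2))) (Z0 i x.2)
      rw [Real.log_mul (by positivity) (prod_pos fun i _ => p i).ne',
        Real.log_prod fun i _ => (p i).ne', neg_add, ← sum_neg_distrib, one_div, Real.log_inv,
        neg_neg]
      refine add_le_add le_rfl (sum_le_sum fun i _ => le_of_eq ?_)
      rw [Real.log_div (mul_pos (pos x hx i) (Real.exp_pos _)).ne' (Z0 _ _).ne',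
        Real.log_mul (pos x hx i).ne' (Real.exp_pos _).ne', Real.log_exp]
      ring
  have b1 : ∀ i, Bdd fun n => -Real.log (Pr (φ i) (φ i n)) := fun i =>
    Bdd.fin (fun a => -Real.log (Pr (φ i) a)) _
  have b2 : ∀ i, Bdd fun n => Real.log (Z i (V n)) := fun i => Bdd.fin (fun v => Real.log (Z i v)) V
  have b3 : ∀ i, Bdd fun n => G i (φ i n) (V n) := fun i =>
    Bdd.fin (fun x : A × W => G i x.1 x.2) fun n => (φ i n, V n)
  dsimp only at h2
  rw [Ex_add (Bdd.const _) (Bdd.sum fun i _ => ((b1 i).add (b2 i)).sub (b3 i)), Ex_const,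
    Ex_sum fun i _ => ((b1 i).add (b2 i)).sub (b3 i)] at h2
  refine ((Ent_le_pair _ V).trans (h1.trans h2)).trans (add_le_add le_rfl (sum_le_sum fun i _ => ?_))
  rw [Ex_sub ((b1 i).add (b2 i)) (b3 i), Ex_add (b1 i) (b2 i)]
  unfold Ent
  linarith only [EZ i]

omit [Fintype A] in
lemma Ent_blk_eq (b : ℕ → A) (H r : ℕ) :
    Ent (blk b (r * H)) = Ent fun n (i : Fin r) => blk b H (n + i * H) := Ent_congr fun m n => by
  simp only [blk, funext_iff]
  constructor
  · intro h i j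
    have := h ⟨i * H + j, by have := i.2; have := j.2; nlinarith⟩
    simpa [add_assoc] using this
  · intro h j
    have H0 : 0 < H := Nat.pos_of_mul_pos_left (j.2.trans_le' (Nat.zero_le _))
    have := h ⟨j / H, Nat.div_lt_of_lt_mul (j.2.trans_eq (mul_comm _ _))⟩
      ⟨j % H, Nat.mod_lt _ H0⟩
    simpa [add_assoc, Nat.div_add_mod'] using this

end

end Pool.Agent.MP_4efd57_nt

end

-- part MP_4efd57_nt.Core
section

/-! The twisted entropy decrement argument. -/

namespace Pool.Agent.MP_4efd57_nt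
open Filter Topology Finset Pool.Agent.MP_f0209c_nt.Ch

/-- normalised sum over the multiples of `p` in a window -/
noncomputable def ZT (J p y : ℕ) (u : ℕ → ℝ) : ℝ :=
  p / J * ∑ j ∈ range J, if p ∣ y + j then u j else 0

lemma abs_ZT {J p : ℕ} (hp : 0 < p) (hJ : p ≤ J) (y : ℕ) {u : ℕ → ℝ} (hu : ∀ j, |u j| ≤ 1) :
    |ZT J p y u| ≤ 2 := by
  have p0 : (0 : ℝ) < p := by exact_mod_cast hp
  have pJ : (p : ℝ) ≤ J := by exact_mod_cast hJ
  have J0 : (0 : ℝ) < J := by linarith only [p0, pJ]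
  have a1 : |∑ j ∈ range J, (if p ∣ y + j then u j else 0)| ≤ J / p + 1 := by
    rw [← sum_filter]
    refine (abs_sum_le_sum_abs _ _).trans ((sum_le_card_nsmul _ _ 1 fun j _ => hu j).trans ?_)
    simpa only [nsmul_eq_mul, mul_one] using card_dvd_le p y J
  rw [ZT, abs_mul, abs_of_pos (by positivity : 0 < (p : ℝ) / J)]
  have a3 := mul_le_mul_of_nonneg_left a1 (by positivity : 0 ≤ (p : ℝ) / J)
  have a5 : (p : ℝ) / J * (J / p + 1) = 1 + p / J := by field_simp
  have a6 : (p : ℝ) / J ≤ 1 := (div_le_one J0).2 pJ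
  linarith only [a3, a5, a6]

lemma hoeff {p : ℕ} {T : ℕ → ℝ} (b : ∀ k, |T k| ≤ 2) (z : ∑ k ∈ range p, T k = 0) {s : ℝ}
    (hs : |s| ≤ 1 / 2) : ∑ k ∈ range p, Real.exp (s * T k) ≤ p * Real.exp (4 * s ^ 2) := by
  refine (sum_le_sum (g := fun k => (1 + 4 * s ^ 2) + s * T k) fun y _ => ?_).trans ?_
  · have a1 : |s * T y| ≤ 1 := by
      rw [abs_mul]; nlinarith [b y, abs_nonneg s, abs_nonneg (T y)]
    have a2 := (abs_le.1 (Real.abs_exp_sub_one_sub_id_le a1)).2
    have a3 : T y ^ 2 ≤ 2 ^ 2 := sq_le_sq' (abs_le.1 (b y)).1 (abs_le.1 (b y)).2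
    nlinarith only [a2, a3]
  · rw [sum_add_distrib, ← mul_sum, z, sum_const, card_range, nsmul_eq_mul, mul_zero, add_zero]
    exact mul_le_mul_of_nonneg_left (by linarith [Real.add_one_le_exp (4 * s ^ 2)])
      (Nat.cast_nonneg p)

lemma Ex_ZT {J p : ℕ} (hp : 0 < p) (hJ : 0 < J) (o : ℕ) (c : ℝ) :
    Ex (fun n => ZT J p (n + o) fun _ => c) = c := by
  have p0 : (p : ℝ) ≠ 0 := by exact_mod_cast hp.ne'
  have J0 : (J : ℝ) ≠ 0 := by exact_mod_cast hJ.ne'
  have e : ∀ j, Ex (fun n => if p ∣ n + o + j then c else 0) = c * (1 / p) := fun j => by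
    rw [← Ex_mod hp (o + j), ← Ex_mul (by fun_prop)]
    simp only [add_assoc, mul_ite, mul_one, mul_zero]
  simp only [ZT]
  rw [Ex_mul (Bdd.sum fun _ _ => by fun_prop), Ex_sum fun _ _ => by fun_prop]
  simp only [e, sum_const, card_range, nsmul_eq_mul]
  field_simp

section
variable {B : Type} [Fintype B] [DecidableEq B] (b : ℕ → B) {α : ℝ} {L : ℕ}
  (Φ : ℝ → (Fin (L + 1) → B) → ℝ) {K δ : ℝ}

/-- one step of the decrement -/
lemma step (hα : Irrational α) (h0 : 0 ≤ α) (hL : 0 < L) (h1 : ∀ z y, |Φ z y| ≤ 1) (hK : 0 ≤ K)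
    (h2 : ∀ z z' y, |Φ z y - Φ z' y| ≤ K * |z - z'|) (h3 : ∀ y, Function.Periodic (Φ · y) 1)
    (hδ : 0 < δ) (hδ1 : δ ≤ 1) {P : ℕ} (U : Finset ℕ)
    (hU : ∀ p ∈ U, p.Prime ∧ p ≤ P ∧ 2 * K ≤ δ * p)
    (h4 : ∀ p ∈ U, ∀ (c : ℝ) y, ∑ κ ∈ range p, Φ ((κ + c) / p) y = 0)
    (h5 : ∀ p ∈ U, ∀ m : ℕ, 1 ≤ m → δ ≤ Φ (m * α) fun i => b (p * (m + i))) (r : ℕ) :
    Ent (blk b (r * (2 * L * P))) ≤ 2 * Real.log (∏ p ∈ U, p : ℕ) +
      r * (Ent (blk b (2 * L * P)) + Real.log 3 - δ ^ 2 / 64 * U.card) := by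
  set Q := ∏ p ∈ U, p with hQ
  have Q0 : 0 < Q := prod_pos fun p hp => (hU p hp).1.pos
  have : NeZero Q := ⟨Q0.ne'⟩
  set H := 2 * L * P with hH
  set s := δ / 16 with hs
  let xv : (Fin H → B) → ℕ → B := fun x j => if h : j < H then x ⟨j, h⟩ else b 0
  let T : ℕ → (Fin H → B) → ℕ → ℕ → ℕ → ℝ := fun o x p y κ =>
    ZT (L * P) p (y + o) fun j => Φ ((κ + (o + j) * α) / p) fun i => xv x (j + p * i)
  have pJ : ∀ p ∈ U, p ≤ L * P := fun p hp => (hU p hp).2.1.trans (Nat.le_mul_of_pos_left _ hL)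
  have bT : ∀ o x, ∀ p ∈ U, ∀ y κ, |T o x p y κ| ≤ 2 := fun o x p hp y κ =>
    abs_ZT (hU p hp).1.pos (pJ p hp) _ fun j => h1 _ _
  have per : ∀ o x p y, Function.Periodic (T o x p y) p := fun o x p y κ => by
    rcases p.eq_zero_or_pos with rfl | hp
    · rfl
    have p0 : (p : ℝ) ≠ 0 := by exact_mod_cast hp.ne'
    simp only [T]
    congr 1
    funext j
    rw [show (((κ + p : ℕ) : ℝ) + (o + j) * α) / p = (κ + (o + j) * α) / p + 1 by
      push_cast; field_simp; ring]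
    exact h3 _ _
  have t := tilt (fun (i : Fin r) n => blk b H (n + i * H)) (VV α Q) (c := 3)
    (β := 4 * s ^ 2 * U.card) (by norm_num) (Pr_VV hα h0 Q)
    (fun i x v => ∑ p ∈ U, s * T (i * H) x p v.1 v.2) fun i x => by
      rw [Fintype.sum_prod_type]
      refine (sum_le_sum (g := fun _ => Q * Real.exp (4 * s ^ 2 * U.card)) fun y _ => ?_).trans
        (le_of_eq (by simp [mul_assoc]))
      simp only [Real.exp_sum]
      generalize (y : ℕ) = y
      rw [Fin.sum_univ_eq_sum_range (fun κ => ∏ p ∈ U, Real.exp (s * T (i * H) x p y κ)), hQ,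
        sum_prod_primes (fun l κ => by simp only [per (i * H) x l y κ]) _ fun l hl => (hU l hl).1]
      refine (prod_le_prod (fun _ _ => by positivity) fun p hp => hoeff (bT _ _ p hp _) ?_
        (by rw [abs_of_pos (by positivity)]; linarith only [hδ1, hs])).trans (le_of_eq ?_)
      · simp only [T, ZT]
        rw [← mul_sum, sum_comm, sum_eq_zero, mul_zero]
        intro j _
        split_ifs
        · exact h4 p hp _ _
        · simp
      · rw [prod_mul_distrib, prod_const, ← Real.exp_nat_mul, Nat.cast_prod, mul_comm (4 * s ^ 2)]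
  have low : ∀ o, ∀ p ∈ U, δ / 2 ≤
      Ex fun n => T o (blk b H (n + o)) p (VV α Q n).1 (VV α Q n).2 := fun o p hp => by
    obtain ⟨p1, p2, p3⟩ := hU p hp
    have p0 : (0 : ℝ) < p := by exact_mod_cast p1.pos
    have pQ : p ∣ Q := dvd_prod_of_mem (fun p => p) hp
    rw [← Ex_ZT p1.pos (p1.pos.trans_le (pJ p hp)) o (δ / 2)]
    refine Ex_mono' ⟨2, fun n => abs_ZT p1.pos (pJ p hp) _ fun _ => ?_⟩
      ⟨2, fun n => bT _ _ p hp _ _⟩ ?_
    · rw [abs_of_pos (by positivity)]; linarith only [hδ1]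
    filter_upwards [eventually_ge_atTop 1] with n hn
    refine mul_le_mul_of_nonneg_left (sum_le_sum fun j hj => ?_) (by positivity)
    have d : p ∣ ((VV α Q n).1 : ℕ) + o + j ↔ p ∣ n + o + j :=
      ((((Nat.mod_modEq n Q).of_dvd pQ).add_right o).add_right j).dvd_iff dvd_rfl
    simp only [d]
    split_ifs with c
    swap
    · exact le_rfl
    obtain ⟨m, hm⟩ := c
    have m1 : 1 ≤ m := Nat.pos_of_mul_pos_left (hm ▸ (by omega : 0 < n + o + j))
    have w : (fun i : Fin (L + 1) => xv (blk b H (n + o)) (j + p * i)) =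
        fun i : Fin (L + 1) => b (p * (m + i)) := funext fun i => by
      have j1 := mem_range.1 hj
      have j2 : p * i ≤ L * P := by
        rw [mul_comm]; exact Nat.mul_le_mul (Nat.lt_succ_iff.1 i.2) p2
      have j3 : H = L * P + L * P := by rw [hH]; ring
      simp only [xv, blk, dif_pos (show j + p * i < H by omega)]
      rw [mul_add, ← hm, add_assoc (n + o)]
    rw [w]
    obtain ⟨q, hq⟩ := pQ
    have k1 : (((VV α Q n).2 : ℕ) : ℝ) + Q * (⌊n * α⌋₊ / Q : ℕ) = (⌊n * α⌋₊ : ℝ) := by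
      exact_mod_cast Nat.mod_add_div ⌊n * α⌋₊ Q
    have k2 : (Q : ℝ) = p * q := by exact_mod_cast hq
    have k3 : (n : ℝ) + o + j = p * m := by exact_mod_cast hm
    have k4 := (h3 fun i => b (p * (m + i))).nat_mul (q * (⌊n * α⌋₊ / Q))
      ((((VV α Q n).2 : ℕ) + (o + j) * α) / p)
    have k5 : ((((VV α Q n).2 : ℕ) : ℝ) + (o + j) * α) / p + ((q * (⌊n * α⌋₊ / Q) : ℕ) : ℝ) * 1 =
        m * α - (n * α - ⌊n * α⌋₊) / p := by
      rw [Nat.cast_mul]
      rw [k2] at k1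
      generalize ((⌊n * α⌋₊ / Q : ℕ) : ℝ) = u at k1 ⊢
      generalize (⌊n * α⌋₊ : ℝ) = u' at k1 ⊢
      field_simp
      linear_combination k1 + α * k3
    rw [← k4, k5]
    have k6 := h2 (m * α - (n * α - ⌊n * α⌋₊) / p) (m * α) fun i => b (p * (m + i))
    have f1 := Nat.floor_le (show 0 ≤ n * α by positivity)
    have f2 := Nat.lt_floor_add_one (n * α)
    rw [sub_sub_cancel_left, abs_neg, abs_of_nonneg (a := _ / (p : ℝ)) (by
      apply div_nonneg <;> linarith only [f1, p0])] at k6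
    have k7 : K * ((n * α - ⌊n * α⌋₊) / p) ≤ δ / 2 := by
      rw [← mul_div_assoc, div_le_iff₀ p0]
      nlinarith only [hK, p3, f2]
    linarith only [(abs_le.1 k6).1, h5 p hp m m1, k7]
  rw [← Ent_blk_eq] at t
  refine t.trans ?_
  rw [Fintype.card_prod, Fintype.card_fin, Nat.cast_mul, ← sq, Real.log_pow]
  refine add_le_add le_rfl ((sum_le_card_nsmul _ _ _ fun i _ => ?_).trans (le_of_eq (by
    rw [card_univ, Fintype.card_fin, nsmul_eq_mul])))
  have bb : ∀ p ∈ U, Bdd fun n => T (i * H) (blk b H (n + i * H)) p (VV α Q n).1 (VV α Q n).2 :=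
    fun p hp => ⟨2, fun n => bT _ _ p hp _ _⟩
  rw [Ent_shift (blk b H), Ex_sum fun p hp => (Bdd.const s).mul (bb p hp)]
  have := card_nsmul_le_sum U _ (s * (δ / 2)) fun p hp => ((mul_le_mul_of_nonneg_left
    (low (i * H) p hp) (by positivity : 0 ≤ s)).trans_eq (Ex_mul (bb p hp) s).symm)
  rw [nsmul_eq_mul] at this
  rw [hs] at this ⊢
  linarith only [this]

/-- the local statistic cannot be positive along all dilations by large primes -/
theorem core (hα : Irrational α) (h0 : 0 ≤ α) (hL : 0 < L) (h1 : ∀ z y, |Φ z y| ≤ 1) (hK : 0 ≤ K)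
    (h2 : ∀ z z' y, |Φ z y - Φ z' y| ≤ K * |z - z'|) (h3 : ∀ y, Function.Periodic (Φ · y) 1)
    (hδ : 0 < δ) (P₀ : ℕ)
    (h4 : ∀ p, p.Prime → P₀ < p → ∀ (c : ℝ) y, ∑ κ ∈ range p, Φ ((κ + c) / p) y = 0)
    (h5 : ∀ p, p.Prime → P₀ < p → ∀ m : ℕ, 1 ≤ m → δ ≤ Φ (m * α) fun i => b (p * (m + i))) :
    False := by
  have hδ1 : δ ≤ 1 := by
    obtain ⟨p, a, c⟩ := Nat.exists_infinite_primes (P₀ + 1)
    exact (h5 p c a 1 le_rfl).trans ((le_abs_self _).trans (h1 _ _))
  have L0 : (1 : ℝ) ≤ L := by exact_mod_cast hL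
  set P₁ := max P₀ ⌈2 * K / δ⌉₊ with hP₁
  set c := δ ^ 2 / (256 * L) with hc
  have c0 : 0 < c := by positivity
  have t := Real.isLittleO_log_id_atTop.bound (show (0 : ℝ) < c / (4 * (P₁ + 3)) by positivity)
  obtain ⟨P₂, hP⟩ := eventually_atTop.1 (pi_lower.and ((log_top.eventually_ge_atTop 1).and
    ((eventually_ge_atTop 1).and ((tendsto_natCast_atTop_atTop (R := ℝ)).eventually t))))
  refine descent (h := fun P => Ent (blk b (2 * L * P)) / (2 * L * P))
    (fun P => div_nonneg (Ent_nonneg _) (by positivity)) (c := c / 2) (A := 8 / c + 3)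
    (by positivity) (by linarith only [div_pos (by norm_num : (0 : ℝ) < 8) c0]) (P₀ := P₂)
    fun P hP1 => ?_
  obtain ⟨a1, a2, a3, a4⟩ := hP P hP1
  have P0 : (0 : ℝ) < P := by exact_mod_cast a3
  rw [Real.norm_of_nonneg (by linarith only [a2]), id, Real.norm_of_nonneg P0.le] at a4
  have r1 := Nat.le_ceil (8 / c * Real.log P)
  have r2 := Nat.ceil_lt_add_one (show 0 ≤ 8 / c * Real.log P by positivity)
  refine ⟨⌈8 / c * Real.log P⌉₊ + 2, by omega, by push_cast; linarith only [a2, r2], ?_⟩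
  have r3 : 8 / c * Real.log P ≤ ((⌈8 / c * Real.log P⌉₊ + 2 : ℕ) : ℝ) := by push_cast; linarith only [r1]
  generalize ⌈8 / c * Real.log P⌉₊ + 2 = r at r3
  have r0 : (0 : ℝ) < r := lt_of_lt_of_le (by positivity) r3
  set U := Nat.primesLE P \ range (P₁ + 1) with hU
  have mU : ∀ p ∈ U, p.Prime ∧ p ≤ P ∧ P₁ < p := fun p hp => by
    obtain ⟨x, y⟩ := mem_sdiff.1 hp
    exact ⟨(Nat.mem_primesLE.1 x).2, (Nat.mem_primesLE.1 x).1, by simpa using y⟩
  have s := step b Φ hα h0 hL h1 hK h2 h3 hδ hδ1 (P := P) U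
    (fun p hp => ⟨(mU p hp).1, (mU p hp).2.1, by
      have : (⌈2 * K / δ⌉₊ : ℝ) ≤ p := by exact_mod_cast ((le_max_right _ _).trans (mU p hp).2.2.le)
      have := (div_le_iff₀ hδ).1 ((Nat.le_ceil _).trans this)
      linarith only [this]⟩)
    (fun p hp => h4 p (mU p hp).1 ((le_max_left _ _).trans_lt (mU p hp).2.2))
    (fun p hp => h5 p (mU p hp).1 ((le_max_left _ _).trans_lt (mU p hp).2.2)) r
  have q1 : Real.log (∏ p ∈ U, p : ℕ) ≤ 2 * P := by
    have a := Chebyshev.theta_le_log4_mul_x P0.le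
    rw [Chebyshev.theta_eq_log_primorial, Nat.floor_natCast, show (4 : ℝ) = 2 ^ 2 by norm_num,
      Real.log_pow] at a
    have e : (∏ p ∈ U, p : ℕ) ≤ primorial P := by
      rw [primorial_eq_prod_primesLE]
      exact prod_le_prod_of_subset_of_one_le' sdiff_subset fun p hp _ =>
        (Nat.mem_primesLE.1 hp).2.pos
    have := Real.log_le_log (by exact_mod_cast prod_pos fun p hp => (mU p hp).1.pos)
      (show ((∏ p ∈ U, p : ℕ) : ℝ) ≤ primorial P by exact_mod_cast e)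
    push_cast at a
    nlinarith only [Real.log_two_lt_d9, a, this]
  have q2 : P / (2 * Real.log P) - (P₁ + 1) ≤ (U.card : ℝ) := by
    have := le_card_sdiff (range (P₁ + 1)) (Nat.primesLE P)
    rw [card_range, ← hU] at this
    have : ((Nat.primesLE P).card : ℝ) ≤ U.card + (P₁ + 1) := by
      exact_mod_cast (by omega : (Nat.primesLE P).card ≤ U.card + (P₁ + 1))
    linarith only [a1, this]
  have q3 : Real.log 3 ≤ 2 := by linarith only [Real.log_le_sub_one_of_pos (show (0 : ℝ) < 3 by norm_num)]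
  have q4 : δ ^ 2 / 64 ≤ 1 := by nlinarith only [hδ, hδ1]
  have l0 : 0 < Real.log P := by linarith only [a2]
  set w := c * P / Real.log P with hw
  have w1 : 4 * (P₁ + 3) ≤ w := by
    rw [le_div_iff₀ l0]
    rw [div_mul_eq_mul_div, le_div_iff₀ (by positivity)] at a4
    linarith only [a4]
  have w2 : 8 * P ≤ r * w := by
    rw [hw, ← mul_div_assoc, le_div_iff₀ l0]
    rw [div_mul_eq_mul_div, div_le_iff₀ c0] at r3
    nlinarith only [r3]
  have w3 : δ ^ 2 / 64 * (P / (2 * Real.log P)) = 2 * L * w := by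
    rw [hw, hc]; field_simp; ring
  have q5 : 2 * L * w - (P₁ + 1) ≤ δ ^ 2 / 64 * U.card := by
    have := mul_le_mul_of_nonneg_left q2 (show 0 ≤ δ ^ 2 / 64 by positivity)
    rw [mul_sub, w3] at this
    nlinarith only [q4, this]
  rw [show 2 * L * (r * P) = r * (2 * L * P) by ring, div_le_iff₀ (by push_cast; positivity)]
  have e : (Ent (blk b (2 * L * P)) / (2 * L * P) - c / 2 / Real.log P) *
      (2 * L * ((r * P : ℕ) : ℝ)) = r * (Ent (blk b (2 * L * P)) - L * w) := by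
    rw [hw]; push_cast; field_simp
  rw [e]
  have w0 : 0 ≤ w := by positivity
  have w4 : w ≤ L * w := le_mul_of_one_le_left w0 L0
  have := mul_le_mul_of_nonneg_left (show Ent (blk b (2 * L * P)) + Real.log 3 - δ ^ 2 / 64 * U.card
    ≤ Ent (blk b (2 * L * P)) - L * w - w / 2 by linarith only [q3, w1, q5, w4]) r0.le
  linarith only [s, q1, w2, this]

end

end Pool.Agent.MP_4efd57_nt

end

-- part MP_4efd57_nt.Main
section

/-! Unbounded quadratically weighted sums along dilations by primes. -/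

namespace Pool.Agent.MP_4efd57_nt
open Filter Topology Finset Pool.Agent.MP_f0209c_nt.Ch

lemma sum_ee_ne {p i j : ℕ} (hp : p.Prime) (hi : i < p) (hj : j < p) (ij : i ≠ j) (c : ℝ) :
    ∑ κ ∈ range p, ee ((i - j) * ((κ + c) / p)) = 0 := by
  have key : ∀ i j : ℕ, i < p → j < i → ∑ κ ∈ range p, ee ((i - j) * ((κ + c) / p)) = 0 :=
    fun i j hi ij => by
      have := sum_ee hp (h := i - j) (by omega) (by omega) c
      simpa only [Nat.cast_sub ij.le, mul_div_assoc] using this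
  rcases lt_or_gt_of_ne ij with l | l
  · have := congrArg (starRingEnd ℂ) (key j i hj l)
    simpa only [map_sum, conj_ee, map_zero, ← neg_mul, neg_sub] using this
  · exact key i j hi l

/-- trigonometric polynomial of a window -/
noncomputable def tp (L : ℕ) (u : ℕ → ℂ) (z : ℝ) : ℂ := ∑ i ∈ range L, ee (i * z) * u i

section
variable {L : ℕ} {u : ℕ → ℂ}

lemma norm_tp (hu : ∀ i, ‖u i‖ = 1) (z : ℝ) : ‖tp L u z‖ ≤ L :=
  (norm_sum_le _ _).trans (by simp [norm_ee, hu])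

lemma tp_lip (hu : ∀ i, ‖u i‖ = 1) (z z' : ℝ) :
    ‖tp L u z - tp L u z'‖ ≤ L * (7 * L * |z - z'|) := by
  rw [tp, tp, ← sum_sub_distrib]
  refine (norm_sum_le _ _).trans ((sum_le_card_nsmul _ _ (7 * L * |z - z'|) fun i hi => ?_).trans
    (by simp))
  rw [← sub_mul, norm_mul, hu, mul_one]
  refine (ee_lip _ _).trans ?_
  have : (i : ℝ) ≤ L := by exact_mod_cast (mem_range.1 hi).le
  rw [← mul_sub, abs_mul, Nat.abs_cast, mul_assoc]
  gcongr

lemma tp_per (z : ℝ) : tp L u (z + 1) = tp L u z := by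
  simp only [tp, mul_add, mul_one, ee_add, ee_nat]

lemma tp_orth (hu : ∀ i, ‖u i‖ = 1) {p : ℕ} (hp : p.Prime) (hL : L < p) (c : ℝ) :
    ∑ κ ∈ range p, ‖tp L u ((κ + c) / p)‖ ^ 2 = p * L := by
  have e : ∀ z, ((‖tp L u z‖ ^ 2 : ℝ) : ℂ) =
      ∑ i ∈ range L, ∑ j ∈ range L, ee ((i - j) * z) * (u i * (starRingEnd ℂ) (u j)) := fun z => by
    rw [← Complex.normSq_eq_norm_sq, ← Complex.mul_conj, tp, map_sum, sum_mul_sum]
    refine sum_congr rfl fun i _ => sum_congr rfl fun j _ => ?_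
    rw [map_mul, conj_ee, sub_mul, sub_eq_add_neg, ee_add]
    ring
  apply Complex.ofReal_injective
  rw [Complex.ofReal_sum]
  simp only [e]
  rw [sum_comm, sum_congr rfl (g := fun _ => (p : ℂ)) fun i hi => ?_]
  · simp [mul_comm]
  rw [sum_comm, sum_eq_single_of_mem i hi fun j hj ne => ?_]
  · have : ee 0 = 1 := by simp [ee]
    simp [this, Complex.mul_conj, Complex.normSq_eq_norm_sq, hu]
  · rw [← sum_mul, sum_ee_ne hp ((mem_range.1 hi).trans hL) ((mem_range.1 hj).trans hL) ne.symm,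
      zero_mul]

end

lemma exists_net {η : ℝ} (hη : 0 < η) : ∃ t : Finset ℂ, (∀ x ∈ t, ‖x‖ = 1) ∧
    ∀ a : ℕ → ℂ, (∀ n, 1 ≤ n → ‖a n‖ = 1) → ∃ a' : ℕ → t, ∀ n, 1 ≤ n → ‖a n - a' n‖ ≤ η := by
  obtain ⟨t, h1, h2, h3⟩ := Metric.finite_approx_of_totallyBounded
    (isCompact_sphere (0 : ℂ) 1).totallyBounded η hη
  refine ⟨h2.toFinset, fun x hx => by simpa using h1 (h2.mem_toFinset.1 hx), fun a ha => ?_⟩
  have ex : ∀ z : ℂ, ‖z‖ = 1 → ∃ y : h2.toFinset, ‖z - y‖ ≤ η := fun z hz => by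
    obtain ⟨y, y1, y2⟩ := Set.mem_iUnion₂.1 (h3 (show z ∈ Metric.sphere (0 : ℂ) 1 by simpa using hz))
    exact ⟨⟨y, h2.mem_toFinset.2 y1⟩, by rw [← dist_eq_norm]; exact (Metric.mem_ball.1 y2).le⟩
  have : ∀ n, ∃ y : h2.toFinset, 1 ≤ n → ‖a n - y‖ ≤ η := fun n => by
    by_cases h : 1 ≤ n
    · obtain ⟨y, hy⟩ := ex _ (ha n h)
      exact ⟨y, fun _ => hy⟩
    · obtain ⟨y, -⟩ := ex 1 norm_one
      exact ⟨y, fun h' => absurd h' h⟩
  exact Classical.skolem.1 this

lemma window {v : ℕ → ℂ} {C : ℝ} (h : ∀ n, 1 ≤ n → ‖∑ k ∈ Icc 1 n, v k‖ ≤ C) {m : ℕ} (hm : 1 ≤ m)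
    (L : ℕ) : ‖∑ i ∈ range L, v (m + i)‖ ≤ 2 * C := by
  have C0 : 0 ≤ C := (norm_nonneg _).trans (h 1 le_rfl)
  have h' : ∀ n, ‖∑ k ∈ Ico 1 (n + 1), v k‖ ≤ C := fun n => by
    rcases n.eq_zero_or_pos with rfl | hn
    · simpa only [zero_add, Std.le_refl, Ico_eq_empty_of_le, sum_empty, norm_zero] using C0
    · exact h n hn
  obtain ⟨m, rfl⟩ := Nat.exists_eq_add_of_le' hm
  have e := sum_Ico_consecutive v (show 1 ≤ m + 1 by omega) (show m + 1 ≤ m + L + 1 by omega)
  rw [sum_Ico_eq_sum_range v (m + 1), show m + L + 1 - (m + 1) = L by omega] at e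
  rw [eq_sub_of_add_eq' e, two_mul]
  exact norm_sub_le_of_le (h' _) (h' _)

lemma norm_prod_sub {ι : Type} (s : Finset ι) {x y : ι → ℂ} (hx : ∀ i, ‖x i‖ = 1)
    (hy : ∀ i, ‖y i‖ = 1) : ‖∏ i ∈ s, x i - ∏ i ∈ s, y i‖ ≤ ∑ i ∈ s, ‖x i - y i‖ := by
  classical
  induction s using Finset.induction_on with
  | empty => simp
  | insert j s hj ih =>
    rw [prod_insert hj, prod_insert hj, sum_insert hj, show x j * ∏ i ∈ s, x i - y j * ∏ i ∈ s, y i =
      (x j - y j) * ∏ i ∈ s, x i + y j * (∏ i ∈ s, x i - ∏ i ∈ s, y i) by ring]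
    refine (norm_add_le _ _).trans ?_
    rw [norm_mul, norm_mul, norm_prod, prod_eq_one fun i _ => hx i, hy, mul_one, one_mul]
    exact add_le_add le_rfl ih

theorem unbounded {α : ℝ} (hα : Irrational α) {l : ℕ} {a : Fin l → ℕ → ℂ}
    (ha : ∀ j n, 1 ≤ n → ‖a j n‖ = 1) (h : Fin l → ℕ) (P₀ : ℕ) (C : ℝ)
    (hC : ∀ d : ℕ, d.Prime → P₀ < d → ∀ n : ℕ, 1 ≤ n →
      ‖∑ k ∈ Icc 1 n, ee ((k : ℕ) ^ 2 * α) * ∏ j, a j (k * d + h j * d)‖ ≤ C) : False := by
  classical
  obtain ⟨L, hL⟩ := exists_nat_ge (2 * (2 * C + 1) ^ 2 + 1)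
  have L1 : (1 : ℝ) ≤ L := by linarith only [sq_nonneg (2 * C + 1), hL]
  have L0 : 0 < L := by exact_mod_cast (zero_lt_one.trans_le L1)
  obtain ⟨t, t1, t2⟩ := exists_net (show (0 : ℝ) < 1 / ((l + 1) * L) by positivity)
  choose a' ha' using fun j => t2 (a j) (ha j)
  set M := L + ∑ j, h j with hM
  let yy : (Fin (M + 1) → Fin l → t) → ℕ → Fin l → t := fun y i =>
    if h : i < M + 1 then y ⟨i, h⟩ else fun j => a' j 0
  let u : (Fin (M + 1) → Fin l → t) → ℕ → ℂ := fun y i =>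
    ee (i ^ 2 * α) * ∏ j, (yy y (i + h j) j : ℂ)
  have hu : ∀ y i, ‖u y i‖ = 1 := fun y i => by
    simp only [u, norm_mul, norm_ee, norm_prod, one_mul]
    exact prod_eq_one fun j _ => t1 _ (yy y (i + h j) j).2
  have irr : Irrational (Int.fract (2 * α)) := by
    rw [Int.fract]
    exact (by exact_mod_cast hα.natCast_mul (m := 2) (by norm_num) : Irrational (2 * α)).sub_intCast _
  refine core (fun n j => a' j n) (fun z y => (L - ‖tp L (u y) z‖ ^ 2) / L ^ 2) irr
    (Int.fract_nonneg _) (by omega : 0 < M) (fun z y => ?_) (K := 14 * L) (by positivity)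
    (fun z z' y => ?_) (fun y z => by simp only [tp_per]) (δ := 1 / (2 * L)) (by positivity)
    (max P₀ L) (fun p hp hp' c y => ?_) fun p hp hp' m hm => ?_
  · have a1 := norm_tp (L := L) (hu y) z
    have a2 := norm_nonneg (tp L (u y) z)
    rw [abs_div, abs_of_pos (by positivity : (0 : ℝ) < L ^ 2), div_le_one (by positivity), abs_le]
    constructor <;> nlinarith only [a1, a2, hL]
  · have a1 := norm_tp (L := L) (hu y) z
    have a2 := norm_tp (L := L) (hu y) z'
    have a3 := (abs_norm_sub_norm_le _ _).trans (tp_lip (L := L) (hu y) z z')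
    rw [← sub_div, abs_div, abs_of_pos (by positivity : (0 : ℝ) < L ^ 2),
      div_le_iff₀ (by positivity), sub_sub_sub_cancel_left, abs_sub_comm, sq_sub_sq, abs_mul,
      abs_of_nonneg (by positivity)]
    refine (mul_le_mul (add_le_add a1 a2) a3 (abs_nonneg _) (by positivity)).trans (le_of_eq ?_)
    ring
  · rw [← sum_div, sum_sub_distrib, tp_orth (hu y) hp ((le_max_right _ _).trans_lt hp')]
    simp
  · have hw := window (hC p hp ((le_max_left _ _).trans_lt hp')) hm L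
    have C0 : 0 ≤ 2 * C := (norm_nonneg _).trans hw
    have e1 : ee (m ^ 2 * α) * tp L (u fun i j => a' j (p * (m + i)))
        (m * Int.fract (2 * α)) = ∑ i ∈ range L,
          ee (((m + i : ℕ) : ℝ) ^ 2 * α) * ∏ j, (a' j ((m + i) * p + h j * p) : ℂ) := by
      rw [tp, mul_sum]
      refine sum_congr rfl fun i hi => ?_
      have i1 := mem_range.1 hi
      have i2 : ∀ j, i + h j < M + 1 := fun j => by
        have := single_le_sum (f := h) (fun _ _ => Nat.zero_le _) (mem_univ j)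
        omega
      have i3 : ∀ j, p * (m + (i + h j)) = (m + i) * p + h j * p := fun j => by ring
      simp only [u, yy, dif_pos (i2 _), i3]
      rw [show ((m + i : ℕ) : ℝ) ^ 2 * α = m ^ 2 * α + (i * (m * Int.fract (2 * α)) + (i ^ 2 * α +
          ((i * m * ⌊2 * α⌋ : ℤ) : ℝ))) by rw [Int.fract]; push_cast; ring,
        ee_add, ee_add, ee_add, ee_int]
      ring
    have e2 : ‖∑ i ∈ range L,
        ee (((m + i : ℕ) : ℝ) ^ 2 * α) * ∏ j, (a' j ((m + i) * p + h j * p) : ℂ) - ∑ i ∈ range L,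
        ee (((m + i : ℕ) : ℝ) ^ 2 * α) * ∏ j, a j ((m + i) * p + h j * p)‖ ≤ 1 := by
      rw [← sum_sub_distrib]
      refine (norm_sum_le _ _).trans ((sum_le_card_nsmul _ _ (1 / (L : ℝ)) fun i _ => ?_).trans ?_)
      swap
      · rw [card_range, nsmul_eq_mul, mul_one_div_cancel (by positivity)]
      have n1 : ∀ j, 1 ≤ (m + i) * p + h j * p := fun j =>
        (Nat.mul_pos (by omega) hp.pos).trans_le (Nat.le_add_right _ _)
      rw [← mul_sub, norm_mul, norm_ee, one_mul, norm_sub_rev]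
      refine (norm_prod_sub _ (fun j => ha j _ (n1 j)) fun j => t1 _ (a' j _).2).trans
        ((sum_le_card_nsmul _ _ _ fun j _ => ha' j _ (n1 j)).trans ?_)
      rw [card_univ, Fintype.card_fin, nsmul_eq_mul, mul_one_div,
        div_le_div_iff₀ (by positivity) (by positivity)]
      linarith only [hL]
    have e3 := norm_le_insert' _ _ |>.trans (add_le_add hw e2)
    rw [← e1, norm_mul, norm_ee, one_mul] at e3
    have e4 := pow_le_pow_left₀ (norm_nonneg _) e3 2
    rw [div_le_div_iff₀ (by positivity) (by positivity)]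
    nlinarith only [hL, e4]

end Pool.Agent.MP_4efd57_nt

end
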